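import Pool.Agent.Helper45.FG.St

/-!
Module NGR of project FG: near-group fusion rings.
-/

set_option autoImplicit false

namespace Pool.Agent.Helper22.FG

open Pool.Agent.Helper45.FG
open scoped BigOperators

/-- The structure constants of the near-group ring. -/
private def ngN (G : Type) [AddCommGroup G] [DecidableEq G] (k : ℕ) :
    Option G → Option G → Option G → ℕ
  | some a, some b, some c => if a + b = c then 1 else 0
  | some _, some _, none => 0
  | some _, none, some _ => 0
  | some _, none, none => 1
  | none, some _, some _ => 0
  | none, some _, none => 1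
  | none, none, some _ => 1
  | none, none, none => k

/-- The duality of the near-group ring. -/
private def ngD (G : Type) [AddCommGroup G] : Option G → Option G
  | some a => some (-a)
  | none => none

/-- The dimension function of the near-group ring. -/
private def ngd (G : Type) (ω : ℝ) : Option G → ℝ
  | some _ => 1
  | none => ω

private lemma ng_assoc (G : Type) [AddCommGroup G] [DecidableEq G] [Fintype G] (k : ℕ)
    (i j l m : Option G) :
    ∑ p, ngN G k i j p * ngN G k p l m = ∑ p, ngN G k j l p * ngN G k i p m := by
  rcases i with _ | a <;> rcases j with _ | b <;> rcases l with _ | c <;> rcases m with _ | e <;>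
    simp [Fintype.sum_option, ngN]
  · rw [Finset.card_eq_one]
    refine ⟨e - c, ?_⟩
    ext x
    simp [eq_sub_iff_add_eq]
  · symm
    rw [Finset.card_eq_one]
    refine ⟨e - a, ?_⟩
    ext x
    simp [eq_sub_iff_add_eq, add_comm]
  · have h1 : ∀ x : G, (if x + c = e then if a + b = x then 1 else 0 else 0)
        = if a + b = x then (if a + b + c = e then (1 : ℕ) else 0) else 0 := by
      intro x
      by_cases h : a + b = x
      · subst h
        simp
      · simp [h]
    have h2 : ∀ x : G, (if a + x = e then if b + c = x then 1 else 0 else 0)
        = if b + c = x then (if a + b + c = e then (1 : ℕ) else 0) else 0 := by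
      intro x
      by_cases h : b + c = x
      · subst h
        simp [add_assoc]
      · simp [h]
    rw [Finset.sum_congr rfl (fun x _ => h1 x), Finset.sum_congr rfl (fun x _ => h2 x)]
    simp

private lemma ng_dual_mul (G : Type) [AddCommGroup G] [DecidableEq G] (k : ℕ)
    (i j l : Option G) :
    ngN G k (ngD G j) (ngD G i) (ngD G l) = ngN G k i j l := by
  rcases i with _ | a <;> rcases j with _ | b <;> rcases l with _ | c <;>
    simp [ngN, ngD]
  have h : (-b + -a = -c) ↔ (a + b = c) := by
    constructor
    · intro h
      have h' : -(-b + -a) = -(-c) := by rw [h]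
      simpa [add_comm] using h'
    · intro h
      subst h
      simp [add_comm]
  simp [h]

private lemma ng_dual_ne (G : Type) [AddCommGroup G] [DecidableEq G] (k : ℕ)
    (i j : Option G) (h : j ≠ ngD G i) : ngN G k i j (some 0) = 0 := by
  rcases i with _ | a <;> rcases j with _ | b <;> simp [ngN, ngD] at h ⊢
  intro h'
  exact h (eq_neg_of_add_eq_zero_right h')

/-- The near-group ring of `G` with parameter `k`. -/
private def ngR (G : Type) [AddCommGroup G] [DecidableEq G] [Fintype G] (k : ℕ) :
    FusionRing (Option G) where
  N := ngN G k
  one := some 0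
  dual := ngD G
  one_mul_self := by
    intro i
    rcases i with _ | a <;> simp [ngN]
  one_mul_ne := by
    intro i l h
    rcases i with _ | a <;> rcases l with _ | b <;> simp [ngN] at h ⊢
    exact fun h' => h h'.symm
  mul_one_self := by
    intro i
    rcases i with _ | a <;> simp [ngN]
  mul_one_ne := by
    intro i l h
    rcases i with _ | a <;> rcases l with _ | b <;> simp [ngN] at h ⊢
    exact fun h' => h h'.symm
  assoc := ng_assoc G k
  dual_dual := by
    intro i
    rcases i with _ | a <;> simp [ngD]
  dual_mul := ng_dual_mul G k
  dual_self := by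
    intro i
    rcases i with _ | a <;> simp [ngD, ngN]
  dual_ne := ng_dual_ne G k

private lemma ng_dim (G : Type) [AddCommGroup G] [DecidableEq G] [Fintype G] (k : ℕ) (ω : ℝ)
    (hω : 0 < ω) (h : ω ^ 2 = k * ω + Fintype.card G) : IsDim (ngR G k) (ngd G ω) := by
  constructor
  · intro i
    rcases i with _ | a
    · exact hω
    · exact one_pos
  · intro i j
    rcases i with _ | a <;> rcases j with _ | b <;>
      simp [Fintype.sum_option, ngR, ngN, ngd]
    nlinarith [h]

theorem hNGR : StNGR := by
  intro N k hN ω hω h
  obtain ⟨n, rfl⟩ : ∃ n, N = n + 1 := ⟨N - 1, by omega⟩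
  refine ⟨Option (Fin (n + 1)), inferInstance, ngR (Fin (n + 1)) k, ngd (Fin (n + 1)) ω, ?_,
    none, rfl⟩
  apply ng_dim _ _ _ hω
  rw [Fintype.card_fin]
  exact h

end Pool.Agent.Helper22.FG
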